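import Pool.Agent.Helper48.FA.F5a

/-!
# FA-F5b: assembly of the algebra (helper83)
-/

set_option autoImplicit false

open Real

namespace Pool.Agent.Helper89.FA

theorem f5b_quad {A B C a b x : ℝ} (hA : A ≤ 0) (hax : a ≤ x) (hxb : x ≤ b)
    (ha : 0 ≤ A * a ^ 2 + B * a + C) (hb : 0 ≤ A * b ^ 2 + B * b + C) :
    0 ≤ A * x ^ 2 + B * x + C := by
  rcases (hax.trans hxb).eq_or_lt with h | h
  · have h1 : x = a := by linarith
    rw [h1]
    exact ha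
  · have h1 : 0 ≤ (b - a) * (A * x ^ 2 + B * x + C) := by
      have e : (b - a) * (A * x ^ 2 + B * x + C) = (b - x) * (A * a ^ 2 + B * a + C) +
          (x - a) * (A * b ^ 2 + B * b + C) + (-A) * (x - a) * (b - x) * (b - a) := by ring
      rw [e]
      have h2 : 0 ≤ (-A) * (x - a) * (b - x) * (b - a) := by
        apply mul_nonneg (mul_nonneg (mul_nonneg _ _) _) <;> linarith
      have h3 : 0 ≤ (b - x) * (A * a ^ 2 + B * a + C) := mul_nonneg (by linarith) ha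
      have h4 : 0 ≤ (x - a) * (A * b ^ 2 + B * b + C) := mul_nonneg (by linarith) hb
      linarith
    exact nonneg_of_mul_nonneg_right h1 (by linarith)

theorem f5b_cub {A B C a b x : ℝ} (hA : A ≤ a + b + x) (hax : a ≤ x) (hxb : x ≤ b)
    (ha : 0 ≤ A * a ^ 2 + B * a + C - a ^ 3) (hb : 0 ≤ A * b ^ 2 + B * b + C - b ^ 3) :
    0 ≤ A * x ^ 2 + B * x + C - x ^ 3 := by
  rcases (hax.trans hxb).eq_or_lt with h | h
  · have h1 : x = a := by linarith
    rw [h1]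
    exact ha
  · have h1 : 0 ≤ (b - a) * (A * x ^ 2 + B * x + C - x ^ 3) := by
      have e : (b - a) * (A * x ^ 2 + B * x + C - x ^ 3) =
          (b - x) * (A * a ^ 2 + B * a + C - a ^ 3) +
          (x - a) * (A * b ^ 2 + B * b + C - b ^ 3) +
          (a + b + x - A) * (x - a) * (b - x) * (b - a) := by ring
      rw [e]
      have h2 : 0 ≤ (a + b + x - A) * (x - a) * (b - x) * (b - a) := by
        apply mul_nonneg (mul_nonneg (mul_nonneg _ _) _) <;> linarith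
      have h3 : 0 ≤ (b - x) * (A * a ^ 2 + B * a + C - a ^ 3) := mul_nonneg (by linarith) ha
      have h4 : 0 ≤ (x - a) * (A * b ^ 2 + B * b + C - b ^ 3) := mul_nonneg (by linarith) hb
      linarith
    exact nonneg_of_mul_nonneg_right h1 (by linarith)

theorem f5b_M {t M : ℝ} (ht1 : 1.0129 ≤ t) (ht2 : t ≤ √2) (hM : M = (3 - √3 * t) ^ 3 / 24) :
    0 < M ∧ 12 * M < 1 := by
  have h1 := sq3_lo
  have h2 := sq3_hi
  have h4 : √2 < 1.4143 := by
    rw [show (1.4143 : ℝ) = √(1.4143 ^ 2) from (Real.sqrt_sq (by norm_num)).symm]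
    exact Real.sqrt_lt_sqrt (by norm_num) (by norm_num)
  have h5 : 0 < 3 - √3 * t := by nlinarith
  have h6 : 3 - √3 * t ≤ 1.2457 := by nlinarith
  have h7 : (3 - √3 * t) ^ 3 ≤ 1.2457 ^ 3 := pow_le_pow_left₀ h5.le h6 3
  have h8 : 0 < (3 - √3 * t) ^ 3 := pow_pos h5 3
  constructor
  · rw [hM]
    positivity
  · rw [hM]
    norm_num at h7 ⊢
    linarith

/-- the point `z₃` -/
theorem f5b_z3 {t M : ℝ} (ht1 : 1.0129 ≤ t) (ht2 : t ≤ √2) (hM : M = (3 - √3 * t) ^ 3 / 24) :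
    ∃ z₃ : ℝ, 0 ≤ z₃ ∧ (t + z₃) ^ 2 = 2 * (1 - z₃ ^ 2) ∧ 4 * z₃ ^ 2 ≤ 3 * M * (t + z₃) ^ 2 ∧
      ∀ z : ℝ, 0 ≤ z → (t + z) ^ 2 ≤ 2 * (1 - z ^ 2) → z ≤ z₃ := by
  have ht0 : 0 < t := by linarith
  have ht2' : t ^ 2 ≤ 2 := by
    have := pow_le_pow_left₀ ht0.le ht2 2
    rwa [Real.sq_sqrt (by norm_num : (0:ℝ) ≤ 2)] at this
  set r : ℝ := √(6 - 2 * t ^ 2) with hr
  have hr2 : r ^ 2 = 6 - 2 * t ^ 2 := Real.sq_sqrt (by linarith)
  have hr0 : 0 ≤ r := Real.sqrt_nonneg _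
  have hrt : t ≤ r := by
    apply Real.le_sqrt_of_sq_le
    linarith
  refine ⟨(r - t) / 3, by linarith, ?_, ?_, ?_⟩
  · nlinarith
  · have h1 : 2 * ((t + (r - t) / 3) / 2) ^ 2 + ((r - t) / 3) ^ 2 = 1 := by nlinarith
    have h2 := alg_e3 (x := (t + (r - t) / 3) / 2) (z := (r - t) / 3) (by linarith) (by linarith) h1
      (by linarith)
    have h3 : 2 * ((t + (r - t) / 3) / 2) - (r - t) / 3 = t := by ring
    rw [h3] at h2
    have h4 : (3 - √3 * t) ^ 3 = 24 * M := by rw [hM]; ring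
    rw [h4] at h2
    nlinarith
  · intro z hz hz2
    by_contra hcon
    push Not at hcon
    nlinarith

theorem f5b_e3 {t M z : ℝ} (ht1 : 1.0129 ≤ t) (ht2 : t ≤ √2) (hM : M = (3 - √3 * t) ^ 3 / 24)
    (hz : 0 ≤ z) (h : (t + z) ^ 2 ≤ 2 * (1 - z ^ 2)) :
    4 * z ^ 2 ≤ 6 * M * ((t + z) ^ 2 - 1 + z ^ 2) := by
  obtain ⟨hM0, hM1⟩ := f5b_M ht1 ht2 hM
  obtain ⟨z₃, h0, h1, h2, h3⟩ := f5b_z3 ht1 ht2 hM
  have hzz := h3 z hz h
  have hq := f5b_quad (A := 12 * M - 4) (B := 12 * M * t) (C := 6 * M * (t ^ 2 - 1)) (a := 0) (b := z₃)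
    (x := z) (by linarith) hz hzz
    (by
      have : 0 ≤ t ^ 2 - 1 := by nlinarith
      have := mul_nonneg (mul_nonneg (by norm_num : (0:ℝ) ≤ 6) hM0.le) this
      linarith)
    (by
      have e : (12 * M - 4) * z₃ ^ 2 + 12 * M * t * z₃ + 6 * M * (t ^ 2 - 1) =
        6 * M * ((t + z₃) ^ 2 - 1 + z₃ ^ 2) - 4 * z₃ ^ 2 := by ring
      rw [e]
      have e2 : (t + z₃) ^ 2 - 1 + z₃ ^ 2 = (t + z₃) ^ 2 / 2 := by linarith
      rw [e2]
      linarith)
  linarith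

theorem f5b_core {t M s z : ℝ} (ht1 : 1.0129 ≤ t) (ht2 : t ≤ √2) (hM : M = (3 - √3 * t) ^ 3 / 24)
    (hM2 : (√2 - t) ^ 2 / 2 ≤ M) (hz : 0 ≤ z) (hs : t ≤ s) (hsz : s ^ 2 ≤ 2 * (1 - z ^ 2)) :
    3 * (s - t) ^ 2 + z ^ 2 ≤ 6 * M * (s ^ 2 - 1 + z ^ 2) ∨
      (0 < z ∧ (z + (s - t)) ^ 3 ≤ 12 * M * (s ^ 2 - 1 + z ^ 2) * z) := by
  obtain ⟨hM0, hM1⟩ := f5b_M ht1 ht2 hM
  have hr2 : √2 ^ 2 = 2 := Real.sq_sqrt (by norm_num)
  have hr20 : 0 ≤ √2 := Real.sqrt_nonneg _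
  have ht0 : 0 < t := by linarith
  have hs0 : 0 < s := by linarith
  have hs2 : s ≤ √2 := by
    apply Real.le_sqrt_of_sq_le
    linarith [sq_nonneg z]
  have hend : 0 ≤ 6 * M - 3 * (√2 - t) ^ 2 := by linarith
  have ht21 : 0 ≤ t ^ 2 - 1 := by nlinarith
  rcases le_total z (s - t) with hzd | hzd
  · -- first alternative
    left
    have hz1 : z ^ 2 ≤ 1 := by linarith [sq_nonneg s]
    set S : ℝ := √(2 * (1 - z ^ 2)) with hS
    have hS2 : S ^ 2 = 2 * (1 - z ^ 2) := Real.sq_sqrt (by linarith)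
    have hS0 : 0 ≤ S := Real.sqrt_nonneg _
    have hsS : s ≤ S := Real.le_sqrt_of_sq_le hsz
    have htz : (t + z) ^ 2 ≤ 2 * (1 - z ^ 2) := by
      refine (pow_le_pow_left₀ (by linarith) ?_ 2).trans hsz
      linarith
    obtain ⟨z₃, h30, h31, h32, h33⟩ := f5b_z3 ht1 ht2 hM
    have hzz := h33 z hz htz
    have hS3 : t + z₃ ≤ S := by
      apply Real.le_sqrt_of_sq_le
      rw [h31]
      have := pow_le_pow_left₀ hz hzz 2
      linarith
    have hSr : S ≤ √2 := by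
      apply Real.le_sqrt_of_sq_le
      rw [hS2]
      linarith [sq_nonneg z]
    have hk1 : 0 ≤ (3 * M - 5 / 2) * (t + z₃) ^ 2 + 6 * t * (t + z₃) + (-3 * t ^ 2 - 1) := by
      have e : (3 * M - 5 / 2) * (t + z₃) ^ 2 + 6 * t * (t + z₃) + (-3 * t ^ 2 - 1) =
        3 * M * (t + z₃) ^ 2 - 3 * z₃ ^ 2 - (1 - (t + z₃) ^ 2 / 2) := by ring
      rw [e]
      linarith
    have hk2 : 0 ≤ (3 * M - 5 / 2) * √2 ^ 2 + 6 * t * √2 + (-3 * t ^ 2 - 1) := by
      have e : (3 * M - 5 / 2) * √2 ^ 2 + 6 * t * √2 + (-3 * t ^ 2 - 1) =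
        (6 * M - 3 * (√2 - t) ^ 2) + (3 * M + 1 / 2) * (√2 ^ 2 - 2) := by ring
      rw [e, hr2]
      linarith
    have hk := f5b_quad (A := 3 * M - 5 / 2) (B := 6 * t) (C := -3 * t ^ 2 - 1) (a := t + z₃) (b := √2)
      (x := S) (by linarith) hS3 hSr hk1 hk2
    have hh := f5b_quad (A := 6 * M - 3) (B := 6 * t) (C := 6 * M * (z ^ 2 - 1) - 3 * t ^ 2 - z ^ 2)
      (a := t + z) (b := S) (x := s) (by linarith) (by linarith) hsS
      (by
        have h7 := f5b_e3 ht1 ht2 hM hz htz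
        have e : (6 * M - 3) * (t + z) ^ 2 + 6 * t * (t + z) +
          (6 * M * (z ^ 2 - 1) - 3 * t ^ 2 - z ^ 2) =
          6 * M * ((t + z) ^ 2 - 1 + z ^ 2) - 4 * z ^ 2 := by ring
        rw [e]
        linarith)
      (by
        have e : (6 * M - 3) * S ^ 2 + 6 * t * S + (6 * M * (z ^ 2 - 1) - 3 * t ^ 2 - z ^ 2) =
          (3 * M - 5 / 2) * S ^ 2 + 6 * t * S + (-3 * t ^ 2 - 1) +
          ((3 * M - 1 / 2) * (S ^ 2 - 2 * (1 - z ^ 2))) := by ring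
        rw [e, hS2]
        rw [hS2] at hk
        linarith)
    linarith
  · rcases hz.eq_or_lt with hz0 | hz0
    · -- `z = 0`
      left
      have hst : s = t := by linarith
      rw [← hz0, hst]
      have := mul_nonneg (mul_nonneg (by norm_num : (0:ℝ) ≤ 6) hM0.le) ht21
      linarith
    right
    refine ⟨hz0, ?_⟩
    have hz1 : z ^ 2 ≤ 1 := by linarith [sq_nonneg s]
    set S : ℝ := √(2 * (1 - z ^ 2)) with hS
    have hS2 : S ^ 2 = 2 * (1 - z ^ 2) := Real.sq_sqrt (by linarith)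
    have hS0 : 0 ≤ S := Real.sqrt_nonneg _
    have hsS : s ≤ S := Real.le_sqrt_of_sq_le hsz
    -- lower end
    have hlow : 0 ≤ 12 * M * z * z ^ 2 + 24 * M * z * (t - z) * z +
        12 * M * z * ((t - z) ^ 2 - 1 + z ^ 2) - z ^ 3 := by
      have h1 := alg_e1 ht1 ht2 hM
      have h2 : z ^ 2 ≤ 1 - t ^ 2 / 2 := by
        have := pow_le_pow_left₀ ht0.le hs 2
        linarith
      have h3 : z ^ 2 * (1 - 12 * M) ≤ (1 - t ^ 2 / 2) * (1 - 12 * M) :=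
        mul_le_mul_of_nonneg_right h2 (by linarith)
      have h4 : 0 ≤ z * (12 * M * (t ^ 2 - 1) - z ^ 2 * (1 - 12 * M)) :=
        mul_nonneg hz (by linarith)
      linarith [h4]
    have hfin : ∀ b : ℝ, z + (s - t) ≤ b → b ≤ 2 * z →
        0 ≤ 12 * M * z * b ^ 2 + 24 * M * z * (t - z) * b +
          12 * M * z * ((t - z) ^ 2 - 1 + z ^ 2) - b ^ 3 →
        (z + (s - t)) ^ 3 ≤ 12 * M * (s ^ 2 - 1 + z ^ 2) * z := by
      intro b hb1 hb2 hb
      have h1 := f5b_cub (A := 12 * M * z) (B := 24 * M * z * (t - z))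
        (C := 12 * M * z * ((t - z) ^ 2 - 1 + z ^ 2)) (a := z) (b := b) (x := z + (s - t))
        (by nlinarith) (by linarith) hb1 hlow hb
      have e : 12 * M * z * (z + (s - t)) ^ 2 + 24 * M * z * (t - z) * (z + (s - t)) +
          12 * M * z * ((t - z) ^ 2 - 1 + z ^ 2) = 12 * M * (s ^ 2 - 1 + z ^ 2) * z := by ring
      linarith
    rcases le_total (t + z) S with hcase | hcase
    · apply hfin (2 * z) (by linarith) le_rfl
      have htz : (t + z) ^ 2 ≤ 2 * (1 - z ^ 2) := by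
        rw [← hS2]
        exact pow_le_pow_left₀ (by linarith) hcase 2
      have h1 := f5b_e3 ht1 ht2 hM hz htz
      have h2 := mul_le_mul_of_nonneg_left h1 (by linarith : 0 ≤ 2 * z)
      have e : 12 * M * z * (2 * z) ^ 2 + 24 * M * z * (t - z) * (2 * z) +
          12 * M * z * ((t - z) ^ 2 - 1 + z ^ 2) - (2 * z) ^ 3 =
          2 * z * (6 * M * ((t + z) ^ 2 - 1 + z ^ 2)) - 2 * z * (4 * z ^ 2) := by ring
      rw [e]
      linarith
    · apply hfin (z + (S - t)) (by linarith) (by linarith)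
      -- `(z + S - t) ^ 3 ≤ 24 M x ^ 2 z`, `x = S / 2`
      have hx : 2 * (S / 2) ^ 2 + z ^ 2 = 1 := by
        have e : 2 * (S / 2) ^ 2 = S ^ 2 / 2 := by ring
        rw [e, hS2]
        ring
      have hx0 : 0 < S / 2 := by linarith
      have h24 : (3 - √3 * t) ^ 3 = 24 * M := by rw [hM]; ring
      have ht3 : t ≤ √3 := ht2.trans (Real.sqrt_le_sqrt (by norm_num))
      have hkey : (z + 2 * (S / 2) - t) ^ 3 ≤ (3 - √3 * t) ^ 3 * (S / 2) ^ 2 * z := by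
        rcases le_total (2 * (S / 2) - z) 1.0129 with hc | hc
        · exact alg_mono hx0 hz0 hx ht1 ht3 (by linarith)
            (alg_e2 (by linarith) hz0 hx hc)
        · have h1 := alg_e3 hx0 hz hx hc
          have h2 : (z + 2 * (S / 2) - (2 * (S / 2) - z)) ^ 3 ≤
              (3 - √3 * (2 * (S / 2) - z)) ^ 3 * (S / 2) ^ 2 * z := by
            have h3 := mul_le_mul_of_nonneg_right h1 hz
            have e : (z + 2 * (S / 2) - (2 * (S / 2) - z)) ^ 3 = 8 * z ^ 2 * z := by ring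
            rw [e]
            linarith
          exact alg_mono hx0 hz0 hx (by linarith) ht3 (by linarith) h2
      rw [h24] at hkey
      have e : 12 * M * z * (z + (S - t)) ^ 2 + 24 * M * z * (t - z) * (z + (S - t)) +
          12 * M * z * ((t - z) ^ 2 - 1 + z ^ 2) = 12 * M * (S ^ 2 - 1 + z ^ 2) * z := by ring
      have e2 : 24 * M * (S / 2) ^ 2 * z = 12 * M * (S ^ 2 / 2) * z := by ring
      have e3 : S ^ 2 - 1 + z ^ 2 = S ^ 2 / 2 := by linarith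
      have e4 : z + 2 * (S / 2) - t = z + (S - t) := by ring
      rw [e4, e2] at hkey
      rw [e, e3]
      linarith

/-- F5b. -/
theorem algebra_two {t M p q : ℝ} (ht1 : 1.0129 ≤ t) (ht2 : t ≤ √2)
    (hM : M = (3 - √3 * t) ^ 3 / 24) (hM2 : (√2 - t) ^ 2 / 2 ≤ M) (hp : 0 < p) (hq : 0 < q)
    (hpq : p ^ 2 + q ^ 2 ≤ 1) (hs : t ≤ p + q) :
    3 * (p + q - t) ^ 2 + (1 - p ^ 2 - q ^ 2) ≤ 12 * M * (p * q) ∨
    ∃ z : ℝ, 0 < z ∧ z ^ 2 = 1 - p ^ 2 - q ^ 2 ∧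
      (z + (p + q - t)) ^ 3 ≤ 24 * M * (p * q) * z := by
  have _ := hp
  have _ := hq
  set z : ℝ := √(1 - p ^ 2 - q ^ 2) with hz
  have hz2 : z ^ 2 = 1 - p ^ 2 - q ^ 2 := Real.sq_sqrt (by linarith)
  have hz0 : 0 ≤ z := Real.sqrt_nonneg _
  have e : (p + q) ^ 2 - 1 + z ^ 2 = 2 * (p * q) := by rw [hz2]; ring
  rcases f5b_core ht1 ht2 hM hM2 hz0 hs (by nlinarith [sq_nonneg (p - q)]) with h | ⟨h1, h2⟩
  · left
    rw [e, hz2] at h
    linarith
  · right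
    refine ⟨z, h1, hz2, ?_⟩
    rw [e] at h2
    linarith

end Pool.Agent.Helper89.FA
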